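import Pool.Agent.W711.HT.Geo

/-! Project HT: sum over a twist region. -/

set_option autoImplicit false

namespace Pool.Agent.W658.HT.Fang

open Filter Finset Topology Metric
open Pool.Agent.W709.VC (Dv S_TET S_DSYM S_FIVE)
open Pool.Agent.W711.HT
open scoped Real ComplexConjugate

lemma sin_sq' (θ : ℂ) : Complex.sin θ ^ 2 =
    -(1 - Complex.exp (2 * Complex.I * θ)) ^ 2 / (4 * Complex.exp (2 * Complex.I * θ)) := by
  have h1 : Complex.exp (2 * Complex.I * θ) = Complex.exp (θ * Complex.I) ^ 2 := by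
    rw [← Complex.exp_nat_mul]
    congr 1
    push_cast
    ring
  have h2 : Complex.exp (-θ * Complex.I) = (Complex.exp (θ * Complex.I))⁻¹ := by
    rw [← Complex.exp_neg]
    congr 1
    ring
  have h3 : Complex.exp (θ * Complex.I) ≠ 0 := Complex.exp_ne_zero _
  rw [h1]
  unfold Complex.sin
  rw [h2]
  have hI : Complex.I ^ 2 = -1 := Complex.I_sq
  set E := Complex.exp (θ * Complex.I)
  field_simp
  rw [hI]
  ring

lemma exp_ne_one_of_sin {θ : ℂ} (h : Complex.sin θ ≠ 0) :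
    Complex.exp (2 * Complex.I * θ) ≠ 1 := by
  intro h1
  apply h
  have := sin_sq' θ
  rw [h1] at this
  simpa using this

/-- one step of the telescoping sum -/
lemma step (hS : S_DSYM) (hF : S_FIVE) (Y Z0 Z1 Z2 c : ℂ) (hY0 : Y ≠ 0) (hY1 : Y ≠ 1)
    (hZ0 : Z0 ≠ 0) (h01 : Z1 = Y * Z0) (h12 : Z2 = Y * Z1) (hZ1 : Z1 ≠ 1)
    (hc : c = (1 - Z1) ^ 2 * Y / (Z1 * (1 - Y) ^ 2)) :
    Dv c = (Dv ((1 - Z2) / (1 - Z1)) - Dv ((1 - Z1) / (1 - Z0)))
      - (Dv ((1 - Z2) / (1 - Y)) - Dv ((1 - Z1) / (1 - Y))) := by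
  obtain ⟨-, hS1, hS2⟩ := hS
  have D0 : Dv 0 = 0 := by
    have := hS2 0
    rw [inv_zero] at this
    linarith
  have D1 : Dv 1 = 0 := by
    have := hS1 1
    rw [sub_self, D0] at this
    linarith
  have hZ10 : Z1 ≠ 0 := by
    rw [h01]
    exact mul_ne_zero hY0 hZ0
  have h1Y : (1 : ℂ) - Y ≠ 0 := sub_ne_zero.2 (Ne.symm hY1)
  have h1Z1 : (1 : ℂ) - Z1 ≠ 0 := sub_ne_zero.2 (Ne.symm hZ1)
  by_cases ha : Z0 = 1
  · -- the left end degenerates
    subst ha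
    rw [mul_one] at h01
    subst h01
    have e1 : c = 1 := by
      rw [hc]
      field_simp
    have e2 : (1 - Z2) / (1 - Z1) = 1 + Z1 := by
      rw [h12]
      field_simp
      ring
    rw [e1, e2, sub_self, div_zero, div_self h1Y, D0, D1]
    ring
  by_cases hb : Z2 = 1
  · -- the right end degenerates
    subst hb
    have e0 : Z1 = Y⁻¹ := by
      field_simp
      rw [mul_comm]
      exact h12.symm
    have e0' : Z0 = Y⁻¹ ^ 2 := by
      have : Y * Z0 = Y⁻¹ := by rw [← h01, e0]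
      field_simp at this ⊢
      linear_combination this
    have e1 : c = 1 := by
      rw [hc, e0]
      have : (1 : ℂ) - Y⁻¹ = (Y - 1) / Y := by
        field_simp
      rw [this]
      field_simp
      ring
    have h1Z0 : (1 : ℂ) - Z0 ≠ 0 := sub_ne_zero.2 (Ne.symm ha)
    have hYp : 1 + Y⁻¹ ≠ 0 := by
      intro h
      apply h1Z0
      rw [e0']
      linear_combination (1 - Y⁻¹) * h
    have e2 : (1 - Z1) / (1 - Z0) = (1 + Y⁻¹)⁻¹ := by
      rw [div_eq_iff h1Z0, e0, e0', inv_mul_eq_div, eq_div_iff hYp]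
      ring
    have e3 : (1 - Z1) / (1 - Y) = 1 - (1 + Y⁻¹) := by
      rw [e0, div_eq_iff h1Y]
      field_simp
      ring
    rw [e1, e2, e3, sub_self, zero_div, zero_div, D0, D1, hS1, hS2]
    ring
  -- the generic case
  have h1Z0 : (1 : ℂ) - Z0 ≠ 0 := sub_ne_zero.2 (Ne.symm ha)
  have h1Z2 : (1 : ℂ) - Z2 ≠ 0 := sub_ne_zero.2 (Ne.symm hb)
  have hx0 : (1 - Z1) / (1 - Y) ≠ 0 := div_ne_zero h1Z1 h1Y
  have hy0 : (1 - Z2) / (1 - Y) ≠ 0 := div_ne_zero h1Z2 h1Y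
  have hx1' : 1 - (1 - Z1) / (1 - Y) = -Y * (1 - Z0) / (1 - Y) := by
    rw [h01]
    field_simp
    ring
  have hy1' : 1 - (1 - Z2) / (1 - Y) = -Y * (1 - Z1) / (1 - Y) := by
    rw [h12]
    field_simp
    ring
  have hx1 : (1 - Z1) / (1 - Y) ≠ 1 := by
    intro h
    have : 1 - (1 - Z1) / (1 - Y) ≠ 0 := by
      rw [hx1']
      exact div_ne_zero (mul_ne_zero (neg_ne_zero.2 hY0) h1Z0) h1Y
    rw [h] at this
    simp at this
  have hy1 : (1 - Z2) / (1 - Y) ≠ 1 := by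
    intro h
    have : 1 - (1 - Z2) / (1 - Y) ≠ 0 := by
      rw [hy1']
      exact div_ne_zero (mul_ne_zero (neg_ne_zero.2 hY0) h1Z1) h1Y
    rw [h] at this
    simp at this
  have hxy : (1 - Z1) / (1 - Y) ≠ (1 - Z2) / (1 - Y) := by
    intro h
    have h' : (1 - Z1) = (1 - Z2) := by
      field_simp at h
      exact h
    rw [h12] at h'
    have : Z1 * (Y - 1) = 0 := by linear_combination h'
    rcases mul_eq_zero.1 this with h'' | h''
    · exact hZ10 h''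
    · exact hY1 (sub_eq_zero.1 h'')
  have key := hF _ _ hx0 hx1 hy0 hy1 hxy
  have f1 : (1 - Z2) / (1 - Y) / ((1 - Z1) / (1 - Y)) = (1 - Z2) / (1 - Z1) := by
    field_simp
  have f2 : (1 - (1 - Z1) / (1 - Y)) / (1 - (1 - Z2) / (1 - Y)) = ((1 - Z1) / (1 - Z0))⁻¹ := by
    rw [hx1', hy1']
    field_simp
  have f3 : (1 - ((1 - Z1) / (1 - Y))⁻¹) / (1 - ((1 - Z2) / (1 - Y))⁻¹) = 1 - c⁻¹ := by
    have g1 : 1 - ((1 - Z1) / (1 - Y))⁻¹ = Y * (1 - Z0) / (1 - Z1) := by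
      rw [inv_div, h01]
      rw [h01] at h1Z1
      field_simp
      ring
    have g2 : 1 - ((1 - Z2) / (1 - Y))⁻¹ = Y * (1 - Z1) / (1 - Z2) := by
      rw [inv_div, h12]
      rw [h12] at h1Z2
      field_simp
      ring
    rw [g1, g2, hc]
    have g3 : (1 - Z0) * (1 - Z2) * Y = (1 - Z1) ^ 2 * Y - Z1 * (1 - Y) ^ 2 := by
      rw [h12, h01]
      ring
    rw [inv_div, div_div_div_eq, eq_sub_iff_add_eq, div_add_div _ _
      (mul_ne_zero h1Z1 (mul_ne_zero hY0 h1Z1))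
      (mul_ne_zero (pow_ne_zero 2 h1Z1) hY0), div_eq_one_iff_eq
      (mul_ne_zero (mul_ne_zero h1Z1 (mul_ne_zero hY0 h1Z1))
        (mul_ne_zero (pow_ne_zero 2 h1Z1) hY0))]
    linear_combination (Y * (1 - Z1) ^ 2) * g3
  rw [f1, f2, f3, hS1, hS2, hS2] at key
  linarith

/-- HT-FANG -/
theorem main : S_DSYM → S_FIVE → S_FANG := by
  intro hS hF a r t t' ha hat hr hs
  have hS' := hS
  obtain ⟨-, hS1, hS2⟩ := hS'
  have D0 : Dv 0 = 0 := by
    have := hS2 0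
    rw [inv_zero] at this
    linarith
  have D1 : Dv 1 = 0 := by
    have := hS1 1
    rw [sub_self, D0] at this
    linarith
  set Y := Complex.exp (2 * Complex.I * r) with hY
  set W := Complex.exp (2 * Complex.I * t) with hW
  set W' := Complex.exp (2 * Complex.I * t') with hW'
  have hY0 : Y ≠ 0 := Complex.exp_ne_zero _
  have hY1 : Y ≠ 1 := exp_ne_one_of_sin hr
  have hW0 : W ≠ 0 := Complex.exp_ne_zero _
  have hW'0 : W' ≠ 0 := Complex.exp_ne_zero _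
  have h1Y : (1 : ℂ) - Y ≠ 0 := sub_ne_zero.2 (Ne.symm hY1)
  -- the numbers `Z k`
  have hZ : ∀ k : ℕ, Complex.exp (2 * Complex.I * (k * r + t)) = Y ^ k * W := by
    intro k
    rw [hY, hW, ← Complex.exp_nat_mul, ← Complex.exp_add]
    congr 1
    ring
  have hZ1 : ∀ k : ℕ, 1 ≤ k → k < a → Y ^ k * W ≠ 1 := by
    intro k h1 h2
    rw [← hZ]
    exact exp_ne_one_of_sin (hs k h1 h2)
  have hZa : Y ^ a * W = W'⁻¹ := by
    rw [← hZ, hW', ← Complex.exp_neg, Complex.exp_eq_exp_iff_exists_int]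
    refine ⟨1, ?_⟩
    push_cast
    linear_combination (2 * Complex.I) * hat
  have hterm : ∀ j : ℕ, j + 1 < a →
      Dv ((Complex.sin (((j + 1 : ℕ) : ℂ) * r + t) / Complex.sin r) ^ 2) =
        (Dv ((1 - Y ^ (j + 2) * W) / (1 - Y ^ (j + 1) * W)) - Dv ((1 - Y ^ (j + 2) * W) / (1 - Y)))
        - (Dv ((1 - Y ^ (j + 1) * W) / (1 - Y ^ j * W)) - Dv ((1 - Y ^ (j + 1) * W) / (1 - Y))) := by
    intro j hj
    have := step hS hF Y (Y ^ j * W) (Y ^ (j + 1) * W) (Y ^ (j + 2) * W)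
      ((Complex.sin (((j + 1 : ℕ) : ℂ) * r + t) / Complex.sin r) ^ 2) hY0 hY1
      (mul_ne_zero (pow_ne_zero _ hY0) hW0) (by ring) (by ring)
      (hZ1 (j + 1) (by omega) hj) ?_
    · rw [this]
      ring
    · rw [div_pow, sin_sq', sin_sq', hZ (j + 1), ← hY]
      have hz : Y ^ (j + 1) * W ≠ 0 := mul_ne_zero (pow_ne_zero _ hY0) hW0
      set Z := Y ^ (j + 1) * W
      field_simp
  obtain ⟨n, rfl⟩ : ∃ n, a = n + 2 := ⟨a - 2, by omega⟩
  have hsum : ∑ k ∈ Ico 1 (n + 2), Dv ((Complex.sin (k * r + t) / Complex.sin r) ^ 2) =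
      ∑ j ∈ range (n + 1), Dv ((Complex.sin (((j + 1 : ℕ) : ℂ) * r + t) / Complex.sin r) ^ 2) := by
    rw [Finset.sum_Ico_eq_sum_range]
    apply Finset.sum_congr (by simp)
    intro j _
    rw [add_comm 1 j]
  rw [hsum, Finset.sum_congr rfl (fun j hj => hterm j (by
    have := Finset.mem_range.1 hj
    omega))]
  rw [Finset.sum_range_sub (fun j => Dv ((1 - Y ^ (j + 1) * W) / (1 - Y ^ j * W))
    - Dv ((1 - Y ^ (j + 1) * W) / (1 - Y)))]
  have hL : HH Y W = -(Dv ((1 - Y ^ (0 + 1) * W) / (1 - Y ^ 0 * W))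
      - Dv ((1 - Y ^ (0 + 1) * W) / (1 - Y))) := by
    unfold HH
    have e1 : (1 - W) / (1 - Y * W) = ((1 - Y ^ (0 + 1) * W) / (1 - Y ^ 0 * W))⁻¹ := by
      rw [inv_div]
      simp
    rw [e1, hS2]
    simp only [zero_add, pow_one]
    ring
  have hR : HH Y W' = Dv ((1 - Y ^ (n + 1 + 1) * W) / (1 - Y ^ (n + 1) * W))
      - Dv ((1 - Y ^ (n + 1 + 1) * W) / (1 - Y)) := by
    have g1 : Y ^ (n + 1 + 1) * W = W'⁻¹ := hZa
    have g2 : Y ^ (n + 1) * W = (Y * W')⁻¹ := by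
      have : Y * (Y ^ (n + 1) * W) = W'⁻¹ := by rw [← g1]; ring
      rw [mul_inv, ← this, ← mul_assoc, inv_mul_cancel₀ hY0, one_mul]
    have g3 : Y * W' ≠ 1 := by
      intro h
      apply hZ1 (n + 1) (by omega) (by omega)
      rw [g2, h, inv_one]
    have g4 : (1 : ℂ) - Y * W' ≠ 0 := sub_ne_zero.2 (Ne.symm g3)
    have g5 : Y * W' ≠ 0 := mul_ne_zero hY0 hW'0
    rw [g1, g2]
    unfold HH
    by_cases hw : W' = 1
    · rw [hw]
      simp only [inv_one, sub_self, zero_div, mul_one]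
      rw [div_self h1Y, D0, D1]
      ring
    have g6 : (1 : ℂ) - W' ≠ 0 := sub_ne_zero.2 (Ne.symm hw)
    have g4' : Y * W' - 1 ≠ 0 := sub_ne_zero.2 g3
    have g6' : W' - 1 ≠ 0 := sub_ne_zero.2 hw
    have k1 : (1 - W'⁻¹) / (1 - (Y * W')⁻¹) = 1 - ((1 - Y * W') / (1 - Y))⁻¹ := by
      have : (1 : ℂ) - (Y * W')⁻¹ = (Y * W' - 1) / (Y * W') := by
        field_simp
      have h2 : (1 : ℂ) - W'⁻¹ = (W' - 1) / W' := by
        field_simp
      rw [this, h2, inv_div]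
      have h5 : (W' - 1) / W' / ((Y * W' - 1) / (Y * W')) = Y * (W' - 1) / (Y * W' - 1) := by
        field_simp
      rw [h5, div_eq_iff g4', sub_mul, one_mul, div_mul_eq_mul_div,
        show (1 - Y) * (Y * W' - 1) = -(1 - Y) * (1 - Y * W') by ring, mul_div_assoc,
        div_self g4]
      ring
    have k2 : (1 - W'⁻¹) / (1 - Y) = (1 - ((1 - W') / (1 - Y * W'))⁻¹)⁻¹ := by
      have h2 : (1 : ℂ) - W'⁻¹ = (W' - 1) / W' := by
        field_simp
      have h3 : (1 : ℂ) - (1 - Y * W') / (1 - W') = W' * (1 - Y) / (W' - 1) := by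
        rw [eq_div_iff g6', sub_mul, div_mul_eq_mul_div, sub_eq_iff_eq_add, eq_comm,
          ← eq_sub_iff_add_eq, ← sub_eq_zero]
        field_simp
        ring
      rw [h2, inv_div (1 - W') (1 - Y * W'), h3, inv_div, div_div]
    rw [k1, k2, hS1, hS2, hS2, hS1, hS2]
    ring
  rw [hL, hR]
  ring

end Pool.Agent.W658.HT.Fang
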